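import Mathlib
import Pool.Agent.Y973.ZH.Main

/-!
# Which preimages of subgroups of the plane in the Heisenberg group are counterexamples

`Heis` is the Heisenberg group (a real analytic Lie group on `ℝ × ℝ × ℝ`), `pre D` the preimage in
it of a subgroup `D` of the plane, `DiscreteSections D` says that `D` meets every line through the
origin in a discrete group, `rankThree α β` is the subgroup of the plane generated by `(1, 0)`,
`(0, 1)`, `(α, β)`, and `Indep α β` is the linear independence of `1, α, β` over the rationals.
-/

set_option autoImplicit false

open Pool.Agent.Y973.ZH Pool.Agent.H336R3.ZM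
open Pool.Agent.Results.MP_3a9d0e_gt.HeisenbergPreimage

namespace Pool.Agent.Results.MP_3a9d0e_gt.PreimageClassification

/-- (1) For every subgroup `D` of the plane, its preimage in the Heisenberg group satisfies `Z_m`
without being closed if and only if `D` is not closed and meets every line through the origin in a
discrete group. (2) For all real `α`, `β` the preimage of the group generated by `(1, 0)`, `(0, 1)`,
`(α, β)` satisfies `Z_m` without being closed if and only if `1`, `α`, `β` are linearly independent
over the rationals. (3) In particular there are a (Hausdorff, second countable, real analytic,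
finite dimensional) Lie group `K` and a subgroup `G` of `K` that satisfies `Z_m` and is not closed
in `K`. -/
theorem result :
    (∀ D : AddSubgroup (ℝ × ℝ), (Zm (pre D) ∧ ¬ IsClosed (pre D : Set Heis)) ↔
      (¬ IsClosed (D : Set (ℝ × ℝ)) ∧ DiscreteSections D)) ∧
    (∀ α β : ℝ, (Zm (pre (rankThree α β)) ∧ ¬ IsClosed (pre (rankThree α β) : Set Heis)) ↔
      Indep α β) ∧
    ∃ (E : Type) (_ : NormedAddCommGroup E) (_ : NormedSpace ℝ E)
      (_ : FiniteDimensional ℝ E) (K : Type) (_ : TopologicalSpace K) (_ : T2Space K)
      (_ : SecondCountableTopology K) (_ : ChartedSpace E K) (_ : Group K)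
      (_ : LieGroup (modelWithCornersSelf ℝ E) ⊤ K) (G : Subgroup K),
        Zm G ∧ ¬ IsClosed (G : Set K) := by
  refine ⟨fun D => ?_, rankThree_iff, ?_⟩
  · rw [isClosed_pre_iff]
    constructor
    · rintro ⟨h1, h2⟩
      exact ⟨h2, (zm_iff D h2).1 h1⟩
    · rintro ⟨h1, h2⟩
      exact ⟨zm_pre D h2, h1⟩
  · have h := (rankThree_iff (√2) (√3)).2 indep
    exact ⟨ℝ × ℝ × ℝ, inferInstance, inferInstance, inferInstance, Heis, inferInstance,
      inferInstance, inferInstance, inferInstance, inferInstance, inferInstance,
      pre (rankThree (√2) (√3)), h.1, h.2⟩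

end Pool.Agent.Results.MP_3a9d0e_gt.PreimageClassification
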